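import Pool.Agent.H639.Bridge2

/-!
# Bootstrapping for the Goussarov-Habiro conjecture

The monoid `M` with its congruences `Y.r n` stands for the monoid of homology cylinders over a
compact oriented surface with the `Y_n`-equivalence relations.  If rational invariants of degree
at most `i` detect the `i`-th relation for all `i ≤ w`, then invariants of degree less than `n`
with values in abelian groups detect the `n`-th relation, as soon as elements of levels `w` and
`w + 1` commute up to level `n`; this last condition is automatic for `n ≤ 2 w + 1`.
-/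

set_option autoImplicit false

namespace Pool.Agent.Results.MP_c00b06_gt.Bootstrap

open Pool.Agent.H639

universe u

theorem result {M : Type u} [Monoid M] (Y : YFiltration M) (w n : ℕ) (hw : 1 ≤ w) (hwn : w < n)
    (hQ : ∀ i : ℕ, 1 ≤ i → i ≤ w → ∀ x y : M,
      (∀ v : M → ℚ, Y.IsFT (i + 1) v → v x = v y) → Y.r i x y)
    (hc : n ≤ 2 * w + 1 ∨
      ∀ x y : M, Y.r w x 1 → Y.r (w + 1) y 1 → Y.r n (x * y) (y * x)) :
    ∀ x y : M, Y.r n x y ↔
      ∀ (A : Type u) [AddCommGroup A] (v : M → A), Y.IsFT n v → v x = v y := by
  intro x y
  constructor
  · intro h A _ v hv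
    exact hv.eq_of_r (by omega) h
  · intro h
    refine Y.main hw hwn hQ ?_ h
    rcases hc with hc | hc
    · intro a b ha hb
      exact Y.anti (by omega) (Y.comm hw (by omega) ha hb)
    · exact hc

end Pool.Agent.Results.MP_c00b06_gt.Bootstrap
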