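import Pool.Agent.H639.Bridge2

/-!
# Rational indistinguishability in the next degree

The monoid `M` with its congruences `Y.r n` stands for the monoid of homology cylinders over a
compact oriented surface with the `Y_n`-equivalence relations.  If `x` and `y` are not separated
by any invariant of degree less than `n` with values in any abelian group then, after replacing
`y` by an element related to it at level `n`, they are not separated by any rational invariant of
degree at most `n`.
-/

set_option autoImplicit false

namespace Pool.Agent.Results.MP_c00b06_gt.NextDegree

open Pool.Agent.H639

universe u

theorem result {M : Type u} [Monoid M] (Y : YFiltration M) (n : ℕ) (hn : 1 ≤ n) (x y : M)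
    (h : ∀ (A : Type u) [AddCommGroup A] (v : M → A), Y.IsFT n v → v x = v y) :
    ∃ y' : M, Y.r n y y' ∧ ∀ v : M → ℚ, Y.IsFT (n + 1) v → v x = v y' :=
  Y.main_next hn h

end Pool.Agent.Results.MP_c00b06_gt.NextDegree
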